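import Mathlib
import Pool.Graph.R_pool_sql_team_seeded_3997aac3.Q151.XI.SdBall

/-!
# Skeletons and the cross-index of iterated barycentric subdivisions
-/

set_option autoImplicit false

namespace Pool.Agent.KS6_6.XI

open Finset Q151.XI

variable {G : Type} [Group G]

/-! ### the largest element of a chain -/

/-- the set of the elements of a chain -/
def ch (P : GPoset G) (c : P.orderComplex.facePoset.P) : Finset P.P := (c : {s // s ∈ P.orderComplex.K.faces}).1

theorem ch_prop (P : GPoset G) (c : P.orderComplex.facePoset.P) :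
    (ch P c).Nonempty ∧ ∀ p ∈ ch P c, ∀ q ∈ ch P c, p ≤ q ∨ q ≤ p := (c : {s // s ∈ P.orderComplex.K.faces}).2

theorem exists_top (P : GPoset G) (c : P.orderComplex.facePoset.P) : ∃ p ∈ ch P c, ∀ q ∈ ch P c, q ≤ p := by
  obtain ⟨h1, h2⟩ := ch_prop P c
  obtain ⟨p, hp⟩ := (ch P c).exists_maximal h1
  refine ⟨p, hp.1, fun q hq => ?_⟩
  rcases h2 q hq p hp.1 with h | h
  · exact h
  · exact hp.2 hq h

/-- the largest element of a chain -/
noncomputable def top (P : GPoset G) (c : P.orderComplex.facePoset.P) : P.P := (exists_top P c).choose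

theorem top_mem (P : GPoset G) (c : P.orderComplex.facePoset.P) : top P c ∈ ch P c := (exists_top P c).choose_spec.1

theorem le_top (P : GPoset G) (c : P.orderComplex.facePoset.P) {q : P.P} (hq : q ∈ ch P c) : q ≤ top P c :=
  (exists_top P c).choose_spec.2 q hq

/-- the vertices of a face -/
def vs (L : GComplex G) (c : L.facePoset.P) : Finset L.V := (c : {s // s ∈ L.K.faces}).1

theorem vs_prop (L : GComplex G) (c : L.facePoset.P) : vs L c ∈ L.K.faces := (c : {s // s ∈ L.K.faces}).2

theorem mem_smul (L : GComplex G) (g : G) (c : L.facePoset.P) (v : L.V) :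
    v ∈ vs L (g • c) ↔ ∃ u ∈ vs L c, g • u = v := by
  change v ∈ (vs L c).map (MulAction.toPerm g).toEmbedding ↔ _
  rw [mem_map]
  rfl

theorem mem_smul_ch (P : GPoset G) (g : G) (c : P.orderComplex.facePoset.P) (v : P.P) :
    v ∈ ch P (g • c) ↔ ∃ u ∈ ch P c, g • u = v := mem_smul P.orderComplex g c v

theorem top_mono (P : GPoset G) {c d : P.orderComplex.facePoset.P} (h : c ≤ d) : top P c ≤ top P d :=
  le_top P d (h (top_mem P c))

theorem top_smul (P : GPoset G) (g : G) (c : P.orderComplex.facePoset.P) : top P (g • c) = g • top P c := by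
  apply le_antisymm
  · obtain ⟨u, hu, he⟩ := (mem_smul_ch P g c _).1 (top_mem P (g • c))
    rw [← he]
    exact P.smul_le g _ _ (le_top P c hu)
  · exact le_top P _ ((mem_smul_ch P g c _).2 ⟨_, top_mem P c, rfl⟩)

theorem pmaps_top (P : GPoset G) : PMaps P.orderComplex.facePoset P :=
  ⟨top P, fun _ _ h => top_mono P h, fun g c => top_smul P g c⟩

theorem pmaps_refl (P : GPoset G) : PMaps P P := ⟨id, fun _ _ h => h, fun _ _ => rfl⟩

theorem pmaps_iter (L : GComplex G) (r : ℕ) : PMaps (GComplex.sd^[r] L).facePoset L.facePoset := by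
  induction r with
  | zero => exact pmaps_refl _
  | succ r ih =>
    rw [Function.iterate_succ_apply']
    exact (pmaps_top (GComplex.sd^[r] L).facePoset).trans ih

/-! ### extending labellings -/

/-- `P` consists of a lower set `O` which maps to `P'` and of blocks, labelled by `β` -/
def Ext (P P' : GPoset G) : Prop := ∃ (O : P.P → Prop) (f : ∀ p, O p → P'.P) (β : P.P → G),
  (∀ (g : G) p, O p → O (g • p)) ∧ (∀ p q, p ≤ q → O q → O p) ∧
  (∀ p q (hp : O p) (hq : O q), p ≤ q → f p hp ≤ f q hq) ∧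
  (∀ (g : G) p (hp : O p) (hp' : O (g • p)), f (g • p) hp' = g • f p hp) ∧
  (∀ (g : G) p, β (g • p) = g * β p) ∧
  (∀ p q, p ≤ q → ¬ O p → β p = β q)

theorem Ext.map [Fintype G] {P P' : GPoset G} (h : Ext P P') {k : ℕ} (h' : PMaps P' (Q G k)) : PMaps P (Q G (k + 1)) := by
  classical
  obtain ⟨O, f, β, h1, h2, h3, h4, h5, h6⟩ := h
  obtain ⟨f', m', e'⟩ := h'
  let φ : P'.P → G × Fin (k + 1) := f'
  have mφ : ∀ p q, p ≤ q → φ p = φ q ∨ (φ p).2 < (φ q).2 := m'
  have eφ : ∀ (g : G) p, φ (g • p) = (g * (φ p).1, (φ p).2) := e'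
  let F : P.P → G × Fin (k + 1 + 1) := fun p =>
    if hp : O p then ((φ (f p hp)).1, (φ (f p hp)).2.castSucc) else (β p, Fin.last (k + 1))
  refine ⟨F, ?_, ?_⟩
  · intro p q hpq
    change F p = F q ∨ (F p).2 < (F q).2
    by_cases hq : O q
    · have hp := h2 p q hpq hq
      simp only [F, dif_pos hp, dif_pos hq]
      rcases mφ _ _ (h3 p q hp hq hpq) with h | h
      · left; rw [h]
      · right; exact h
    · by_cases hp : O p
      · right
        simp only [F, dif_pos hp, dif_neg hq]
        exact Fin.castSucc_lt_last _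
      · left
        simp only [F, dif_neg hp, dif_neg hq]
        rw [h6 p q hpq hp]
  · intro g p
    change F (g • p) = (g * (F p).1, (F p).2)
    by_cases hp : O p
    · have hp' := h1 g p hp
      simp only [F, dif_pos hp, dif_pos hp']
      rw [h4 g p hp hp', eφ]
    · have hp' : ¬ O (g • p) := fun h => hp (by
        have := h1 g⁻¹ _ h
        rwa [inv_smul_smul] at this)
      simp only [F, dif_neg hp, dif_neg hp']
      rw [h5]

theorem Ext.chains {P P' : GPoset G} (h : Ext P P') : Ext P.orderComplex.facePoset P'.orderComplex.facePoset := by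
  classical
  obtain ⟨O, f, β, h1, h2, h3, h4, h5, h6⟩ := h
  let U : P.orderComplex.facePoset.P → Finset P.P := ch P
  let im : ∀ c : P.orderComplex.facePoset.P, (∀ p ∈ U c, O p) → Finset P'.P := fun c hc =>
    (U c).attach.image fun p => f p.1 (hc p.1 p.2)
  have him : ∀ c hc x, x ∈ im c hc ↔ ∃ p, ∃ hp : p ∈ U c, f p (hc p hp) = x := by
    intro c hc x
    simp only [im, mem_image, mem_attach, true_and, Subtype.exists]
  have hface : ∀ c hc, im c hc ∈ P'.orderComplex.K.faces := by
    intro c hc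
    obtain ⟨hs1, hs2⟩ := ch_prop P c
    refine ⟨?_, ?_⟩
    · obtain ⟨p, hp⟩ := hs1
      exact ⟨_, (him _ hc _).2 ⟨p, hp, rfl⟩⟩
    · intro x hx y hy
      obtain ⟨p, hp, rfl⟩ := (him _ hc _).1 hx
      obtain ⟨q, hq, rfl⟩ := (him _ hc _).1 hy
      rcases hs2 p hp q hq with h | h
      · exact Or.inl (h3 _ _ _ _ h)
      · exact Or.inr (h3 _ _ _ _ h)
  refine ⟨fun c => ∀ p ∈ U c, O p, fun c hc => (⟨im c hc, hface c hc⟩ : {s // s ∈ P'.orderComplex.K.faces}),
    fun c => β (top P c), ?_, ?_, ?_, ?_, ?_, ?_⟩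
  · intro g c hc p hp
    obtain ⟨u, hu, rfl⟩ := (mem_smul_ch P g c p).1 hp
    exact h1 g u (hc u hu)
  · intro c d hcd hd p hp
    exact hd p (hcd hp)
  · intro c d hc hd hcd x hx
    obtain ⟨p, hp, rfl⟩ := (him _ hc _).1 hx
    exact (him _ hd _).2 ⟨p, hcd hp, rfl⟩
  · intro g c hc hc'
    apply Subtype.ext
    apply Finset.ext
    intro (x : P'.P)
    change x ∈ im (g • c) hc' ↔ x ∈ (im c hc).map (MulAction.toPerm g).toEmbedding
    refine (him _ _ _).trans (Iff.trans ?_ mem_map.symm)
    constructor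
    · rintro ⟨p, hp, rfl⟩
      obtain ⟨u, hu, rfl⟩ := (mem_smul_ch P g c p).1 hp
      exact ⟨f u (hc u hu), (him _ _ _).2 ⟨u, hu, rfl⟩, (h4 g u (hc u hu) (hc' _ hp)).symm⟩
    · rintro ⟨y, hy, rfl⟩
      obtain ⟨u, hu, rfl⟩ := (him _ _ _).1 hy
      have hu' : g • u ∈ U (g • c) := (mem_smul_ch P g c _).2 ⟨u, hu, rfl⟩
      exact ⟨g • u, hu', h4 g u (hc u hu) (hc' _ hu')⟩
  · intro g c
    change β (top P (g • c)) = g * β (top P c)
    rw [top_smul, h5]
  · intro c d hcd hc
    push Not at hc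
    obtain ⟨p, hp, hpO⟩ := hc
    exact h6 _ _ (top_mono P hcd) fun h => hpO (h2 _ _ (le_top P c hp) h)

theorem Ext.sd_iter {L L' : GComplex G} (h : Ext L.facePoset L'.facePoset) (r : ℕ) :
    Ext (GComplex.sd^[r] L).facePoset (GComplex.sd^[r] L').facePoset := by
  induction r with
  | zero => exact h
  | succ r ih =>
    rw [Function.iterate_succ_apply', Function.iterate_succ_apply']
    exact ih.chains

/-! ### free actions -/

theorem equiv_map (X : Type) [MulAction G X] (h : ∀ (g : G) (x : X), g • x = x → g = 1) :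
    ∃ φ : X → G, ∀ (g : G) x, φ (g • x) = g * φ x := by
  have k : ∀ x : X, ∃ g : G, g • (Quotient.mk (MulAction.orbitRel G X) x).out = x := fun x =>
    (MulAction.orbitRel G X).symm (Quotient.mk_out x)
  choose φ hφ using k
  refine ⟨φ, fun g x => ?_⟩
  have a := hφ (g • x)
  rw [Quotient.sound (s := MulAction.orbitRel G X) (a := g • x) (b := x) ⟨g, rfl⟩] at a
  rw [eq_comm, ← inv_mul_eq_one]
  refine h _ (Quotient.mk (MulAction.orbitRel G X) x).out ?_
  rw [mul_smul, inv_smul_eq_iff, mul_smul, hφ, a]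

/-- the barycentre of a face -/
noncomputable def bary (L : GComplex G) (s : Finset L.V) (hs : s ∈ L.K.faces) : L.Realization := by
  classical exact
  { val := fun v => if v ∈ s then (s.card : ℝ)⁻¹ else 0
    nonneg := fun v => by split_ifs <;> positivity
    sum_eq := by
      rw [sum_ite_mem, univ_inter, sum_const, nsmul_eq_mul, mul_inv_cancel₀]
      have := card_pos.2 (L.K.isRelLowerSet_faces hs).1
      positivity
    supp := ⟨s, hs, fun v hv => by by_contra h; exact hv (if_neg h)⟩ }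

theorem face_free {L : GComplex G} (hL : L.IsFree) (g : G) (s : L.facePoset.P) (h : g • s = s) : g = 1 := by
  classical
  apply hL g (bary L (vs L s) (vs_prop L s))
  apply GComplex.Realization.ext
  funext v
  change (if g⁻¹ • v ∈ vs L s then ((vs L s).card : ℝ)⁻¹ else 0) = if v ∈ vs L s then ((vs L s).card : ℝ)⁻¹ else 0
  have h1 : g⁻¹ • v ∈ vs L s ↔ v ∈ vs L s := by
    have h2 := mem_smul L g s v
    rw [h] at h2
    rw [h2]
    constructor
    · exact fun h => ⟨_, h, smul_inv_smul g v⟩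
    · rintro ⟨u, hu, rfl⟩
      rwa [inv_smul_smul]
  by_cases hv : v ∈ vs L s
  · rw [if_pos hv, if_pos (h1.2 hv)]
  · rw [if_neg hv, if_neg fun h => hv (h1.1 h)]

/-! ### skeletons -/

/-- the `k`-skeleton -/
@[reducible] def skel (L : GComplex G) (k : ℕ) : GComplex G where
  V := L.V
  K :=
    { faces := {s | s ∈ L.K.faces ∧ s.card ≤ k + 1}
      isRelLowerSet_faces := fun {s} hs => ⟨(L.K.isRelLowerSet_faces hs.1).1, fun t hts ht =>
        ⟨(L.K.isRelLowerSet_faces hs.1).2 hts ht, (card_le_card hts).trans hs.2⟩⟩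
      singleton_mem := fun v => ⟨L.K.singleton_mem v, by rw [card_singleton]; omega⟩ }
  smul_mem := fun g s hs => ⟨L.smul_mem g s hs.1, by rw [card_map]; exact hs.2⟩

theorem skel_maps (L : GComplex G) (k : ℕ) : Maps (skel L k) L :=
  ⟨fun v => v, fun s hs => ⟨s, hs.1, fun _ h => h⟩, fun _ _ => rfl⟩

theorem skel_free {L : GComplex G} (hL : L.IsFree) (k : ℕ) : (skel L k).IsFree := by
  intro g x hx
  obtain ⟨s, hs, h⟩ := x.supp
  let y : L.Realization := ⟨x.val, x.nonneg, x.sum_eq, ⟨s, hs.1, h⟩⟩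
  refine hL g y ?_
  apply GComplex.Realization.ext
  have h1 : (g • x).val = x.val := by rw [hx]
  exact h1

theorem skel_ext {L : GComplex G} (hL : L.IsFree) (k : ℕ) : Ext (skel L (k + 1)).facePoset (skel L k).facePoset := by
  obtain ⟨β, hβ⟩ := equiv_map (skel L (k + 1)).facePoset.P (face_free (skel_free hL (k + 1)))
  let U : (skel L (k + 1)).facePoset.P → Finset L.V := fun c => (c : {s // s ∈ (skel L (k + 1)).K.faces}).1
  have hU : ∀ c, U c ∈ L.K.faces ∧ (U c).card ≤ k + 1 + 1 := fun c => (c : {s // s ∈ (skel L (k + 1)).K.faces}).2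
  refine ⟨fun c => (U c).card ≤ k + 1, fun c hc => (⟨U c, (hU c).1, hc⟩ : {s // s ∈ (skel L k).K.faces}), β,
    ?_, ?_, ?_, ?_, hβ, ?_⟩
  · intro g c hc
    change ((U c).map (MulAction.toPerm g).toEmbedding).card ≤ k + 1
    rw [card_map]; exact hc
  · intro c d hcd hd
    exact (card_le_card hcd).trans hd
  · intro c d _ _ hcd
    exact hcd
  · intro g c hc hc'
    rfl
  · intro c d hcd hc
    congr 1
    apply Subtype.ext
    change U c = U d
    have h1 : U c ⊆ U d := hcd
    apply eq_of_subset_of_card_le h1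
    have := (hU d).2
    change ¬ (U c).card ≤ k + 1 at hc
    omega

/-- a discrete set of faces -/
theorem skel_zero [Fintype G] {L : GComplex G} (hL : L.IsFree) : PMaps (skel L 0).facePoset (Q G 0) := by
  obtain ⟨β, hβ⟩ := equiv_map (skel L 0).facePoset.P (face_free (skel_free hL 0))
  let U : (skel L 0).facePoset.P → Finset L.V := fun c => (c : {s // s ∈ (skel L 0).K.faces}).1
  have hU : ∀ c, U c ∈ L.K.faces ∧ (U c).card ≤ 0 + 1 := fun c => (c : {s // s ∈ (skel L 0).K.faces}).2
  let F : (skel L 0).facePoset.P → G × Fin (0 + 1) := fun c => (β c, 0)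
  refine ⟨F, ?_, ?_⟩
  · intro c d hcd
    left
    change ((β c, 0) : G × Fin (0 + 1)) = (β d, 0)
    have h1 : U c ⊆ U d := hcd
    have h2 : c = d := by
      apply Subtype.ext
      change U c = U d
      apply eq_of_subset_of_card_le h1
      have h3 := (hU d).2
      have h4 := card_pos.2 (L.K.isRelLowerSet_faces (hU c).1).1
      omega
    rw [h2]
  · intro g c
    change ((β (g • c), 0) : G × Fin (0 + 1)) = (g * β c, 0)
    rw [hβ]

theorem skel_top [Fintype G] (L : GComplex G) : Maps L (skel L (Fintype.card L.V)) :=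
  ⟨fun v => v, fun s hs => ⟨s, ⟨hs, (card_le_univ s).trans (Nat.le_succ _)⟩, fun _ h => h⟩, fun _ _ => rfl⟩

/-! ### exact values of the cross-index -/

theorem Q_succ [Fintype G] (k : ℕ) : PMaps (Q G k) (Q G (k + 1)) := by
  let F : G × Fin (k + 1) → G × Fin (k + 1 + 1) := fun p => (p.1, p.2.castSucc)
  refine ⟨F, ?_, ?_⟩
  · intro p q h
    rcases h with h | h
    · left; rw [h]
    · right; exact h
  · intro g p
    rfl

theorem Q_mono [Fintype G] {k l : ℕ} (h : k ≤ l) : PMaps (Q G k) (Q G l) := by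
  induction l, h using Nat.le_induction with
  | base => exact pmaps_refl _
  | succ l _ ih => exact ih.trans (Q_succ l)

theorem xind_le [Fintype G] {P : GPoset G} {n : ℕ} (h : PMaps P (Q G n)) : Xind P ≤ n :=
  sInf_le ⟨n, rfl, h⟩

theorem le_xind [Fintype G] {P : GPoset G} {n : ℕ} (h : ∀ j < n, ¬ PMaps P (Q G j)) : (n : ℕ∞) ≤ Xind P := by
  refine le_sInf ?_
  rintro _ ⟨k, rfl, hk⟩
  by_contra hlt
  push Not at hlt
  exact h k (by exact_mod_cast hlt) hk

theorem not_pmaps [Fintype G] {P : GPoset G} {n j : ℕ} (h : (n : ℕ∞) ≤ Xind P) (hj : j < n) : ¬ PMaps P (Q G j) := by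
  intro h'
  have := h.trans (xind_le h')
  exact absurd hj (not_lt.2 (by exact_mod_cast this))

theorem pmaps_of_xind [Fintype G] {P : GPoset G} {n : ℕ} (h : Xind P ≤ n) : PMaps P (Q G n) := by
  by_contra hcon
  have h1 : ((n + 1 : ℕ) : ℕ∞) ≤ Xind P := le_xind fun j hj hj' => hcon (hj'.trans (Q_mono (by omega)))
  have h2 := h1.trans h
  have h3 : n + 1 ≤ n := by exact_mod_cast h2
  omega

/-- every value up to the cross-index of the `r`-th subdivision is the cross-index of the `r`-th subdivision of a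
skeleton, of dimension at least this value -/
theorem exists_skel [Fintype G] {L : GComplex G} (hL : L.IsFree) (r n : ℕ) (hn : (n : ℕ∞) ≤ Xind (GComplex.sd^[r] L).facePoset) :
    ∃ k, n ≤ k ∧ Xind (GComplex.sd^[r] (skel L k)).facePoset = n := by
  classical
  have hB : ∀ k j, PMaps (GComplex.sd^[r] (skel L k)).facePoset (Q G j) →
      PMaps (GComplex.sd^[r] (skel L (k + 1))).facePoset (Q G (j + 1)) := fun k j h =>
    ((skel_ext hL k).sd_iter r).map h
  have h00 : PMaps (GComplex.sd^[r] (skel L 0)).facePoset (Q G 0) := (pmaps_iter _ r).trans (skel_zero hL)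
  have hkk : ∀ k, PMaps (GComplex.sd^[r] (skel L k)).facePoset (Q G k) := by
    intro k
    induction k with
    | zero => exact h00
    | succ k ih => exact hB k k ih
  rcases Nat.eq_zero_or_pos n with h0 | hpos
  · subst h0
    refine ⟨0, le_rfl, le_antisymm (xind_le h00) (by simp)⟩
  · have hex : ∃ k, ¬ PMaps (GComplex.sd^[r] (skel L k)).facePoset (Q G (n - 1)) := by
      refine ⟨Fintype.card L.V, fun h => ?_⟩
      exact not_pmaps hn (Nat.sub_lt hpos one_pos) ((((skel_top L).sd_iter r).face).trans h)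
    obtain ⟨k, hk, hmin⟩ : ∃ k, (¬ PMaps (GComplex.sd^[r] (skel L k)).facePoset (Q G (n - 1))) ∧
        ∀ k' < k, PMaps (GComplex.sd^[r] (skel L k')).facePoset (Q G (n - 1)) :=
      ⟨Nat.find hex, Nat.find_spec hex, fun k' hk' => not_not.1 (Nat.find_min hex hk')⟩
    have hk0 : k ≠ 0 := by
      rintro rfl
      exact hk (h00.trans (Q_mono (by omega)))
    obtain ⟨k', rfl⟩ : ∃ k', k = k' + 1 := ⟨k - 1, by omega⟩
    have h1 := hB k' (n - 1) (hmin k' (by omega))
    rw [Nat.sub_add_cancel hpos] at h1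
    refine ⟨k' + 1, ?_, le_antisymm (xind_le h1) (le_xind fun j hj hj' => hk (hj'.trans (Q_mono (by omega))))⟩
    by_contra hlt
    exact hk ((hkk (k' + 1)).trans (Q_mono (by omega)))

end Pool.Agent.KS6_6.XI
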