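import Mathlib
import Pool.Agent.KS6_6.XI.A

/-!
# Complexes with given index and given cross-index of the `r`-th subdivision
The proof of `exists_sd'` is the one of `Q151.XI.exists_sd` (library).
-/

set_option autoImplicit false

namespace Pool.Agent.KS6_6.XI

open Finset Q151.XI

variable {G : Type} [Group G]

/-- there is a continuous equivariant map of the realizations -/
def ContMap (K L : GComplex G) : Prop :=
  ∃ f : K.Realization → L.Realization, Continuous f ∧ ∀ (g : G) (x : K.Realization), f (g • x) = g • f x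

theorem ContMap.trans {K L M : GComplex G} (h : ContMap K L) (h' : ContMap L M) : ContMap K M := by
  obtain ⟨f, f1, f2⟩ := h
  obtain ⟨f', f1', f2'⟩ := h'
  exact ⟨f' ∘ f, f1'.comp f1, fun g x => by simp only [Function.comp_apply, f2, f2']⟩

theorem contMap_of_maps {K L : GComplex G} (h : Maps K L) : ContMap K L := by
  obtain ⟨φ, h1, h2⟩ := h
  exact exists_real_map K L φ h1 h2

variable [Fintype G]

theorem exists_sd' (G : Type) [Group G] [Fintype G] (hG : 2 ≤ Fintype.card G) (r m n : ℕ)
    (hm : 1 ≤ m) : ∃ K : GComplex G, K.IsFree ∧ Maps (E G m) K ∧ ContMap K (E G m) ∧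
      (n : ℕ∞) ≤ Xind (GComplex.sd^[r] K).facePoset := by
  classical
  obtain ⟨Δ, hΔ⟩ := exists_cover G (by rwa [Nat.card_eq_fintype_card])
    (Fintype.card (Fin (n + 1) × Fin (n + 1) × Fin (n + 1))) Fintype.card_pos
  set ρ := rad Δ n r with hρ
  obtain ⟨B, hB, adj, hne, hs, hg, hNB, hlab, hdeg⟩ := hΔ (2 * RR (2 * ρ) + 2)
  let : Fintype B := Fintype.ofFinite B
  set R := RR (2 * ρ) with hR
  have h0 : ∀ s, BR adj R ρ s → s.Nonempty := fun s h => h.1
  have hface : ∀ s ∈ (ballCx (BR adj R ρ) h0 BR_down BR_sing (BR_inv hg) m).K.faces,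
    CF (BR adj R ρ) m s := fun s h => h
  have hRb : 2 * ρ < R := by
    rw [hR]
    unfold RR
    omega
  refine ⟨ballCx (BR adj R ρ) h0 BR_down BR_sing (BR_inv hg) m, ?_, ?_, ?_, ?_⟩
  · -- free
    intro g x hx
    obtain ⟨s, hs', h⟩ := x.supp
    have hne : ∃ v, x.val v ≠ 0 := by
      by_contra hcon
      push Not at hcon
      have h1 := x.sum_eq
      rw [sum_eq_zero fun v _ => hcon v] at h1
      exact zero_ne_one h1
    obtain ⟨v, hv⟩ := hne
    have hv' : x.val (sg (m := m) g⁻¹ v) ≠ 0 := by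
      have h1 : (g • x).val v = x.val v := by rw [hx]
      have h2 : (g • x).val v = x.val (sg (m := m) g⁻¹ v) := rfl
      rw [← h2, h1]
      exact hv
    have m1 := h v hv
    have m2 := h _ hv'
    have hc : CF (BR adj R ρ) m s := hs'
    rcases v with v | v
    · have m1' : v ∈ s.toLeft := mem_toLeft.2 m1
      have m2' : gs g⁻¹ v ∈ s.toLeft := mem_toLeft.2 m2
      rcases hc with ⟨_, hc⟩ | ⟨hc, _⟩
      · have h3 : gs g⁻¹ v = v := eq_of_fst (R := R) _ hNB (by omega)
          (lt_of_le_of_lt (BR_diam hs hc m2' m1') hRb) rfl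
        have h4 : g⁻¹ * v.2 = v.2 := congrArg Prod.snd h3
        exact inv_eq_one.1 (mul_eq_right.1 h4)
      · rw [hc] at m1'
        exact absurd m1' (notMem_empty _)
    · have m1' : v ∈ s.toRight := mem_toRight.2 m1
      have m2' : gs g⁻¹ v ∈ s.toRight := mem_toRight.2 m2
      rcases hc with ⟨hc, _⟩ | ⟨_, _, hc⟩
      · rw [hc] at m1'
        exact absurd m1' (notMem_empty _)
      · have h3 : gs g⁻¹ v = v := hc _ m2' _ m1' rfl
        have h4 : g⁻¹ * v.2 = v.2 := congrArg Prod.snd h3
        exact inv_eq_one.1 (mul_eq_right.1 h4)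
  · refine ⟨fun v : Fin (m + 1) × G =>
      (Sum.inr v : (B × G) ⊕ (Fin (m + 1) × G)), ?_, ?_⟩
    · refine simp_aux (E G m) _ _ ?_
      intro s hs' t ht hne
      right
      obtain ⟨h1, h2⟩ := hs'
      refine ⟨?_, ?_, ?_⟩
      · rw [eq_empty_iff_forall_notMem]
        intro p hp
        rw [mem_toLeft] at hp
        obtain ⟨u, _, hu⟩ := (ht _).1 hp
        exact Sum.inr_ne_inl hu
      · obtain ⟨p, hp⟩ := hne
        obtain ⟨u, _, hu⟩ := (ht _).1 hp
        rw [← hu] at hp
        exact ⟨u, mem_toRight.2 hp⟩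
      · intro p hp q hq hpq
        rw [mem_toRight] at hp hq
        obtain ⟨u, hu1, hu⟩ := (ht _).1 hp
        obtain ⟨v, hv1, hv⟩ := (ht _).1 hq
        have e1 : u = p := Sum.inr.inj hu
        have e2 : v = q := Sum.inr.inj hv
        rw [← e1, ← e2]
        rw [← e1, ← e2] at hpq
        exact h2 u hu1 v hv1 hpq
    · intro g v
      rfl
  · -- the map to `E_m G`
    refine exists_map (adj := adj) (r := 2 * ρ) hs hg hNB le_rfl hm _
      (fun p : (B × G) ⊕ (Fin (m + 1) × G) => p) ?_ ?_
    · intro g p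
      rfl
    · intro s hs' p hp q hq
      have hc : CF (BR adj R ρ) m s := hs'
      rcases p with p | p <;> rcases q with q | q
      · rcases hc with ⟨_, hc⟩ | ⟨hc, _⟩
        · exact BR_diam hs hc (mem_toLeft.2 hp) (mem_toLeft.2 hq)
        · have := mem_toLeft.2 hp
          rw [hc] at this
          exact absurd this (notMem_empty _)
      · rcases hc with ⟨hc, _⟩ | ⟨hc, _⟩
        · have := mem_toRight.2 hq
          rw [hc] at this
          exact absurd this (notMem_empty _)
        · have := mem_toLeft.2 hp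
          rw [hc] at this
          exact absurd this (notMem_empty _)
      · rcases hc with ⟨hc, _⟩ | ⟨hc, _⟩
        · have := mem_toRight.2 hp
          rw [hc] at this
          exact absurd this (notMem_empty _)
        · have := mem_toLeft.2 hq
          rw [hc] at this
          exact absurd this (notMem_empty _)
      · rcases hc with ⟨hc, _⟩ | ⟨_, _, hc⟩
        · have := mem_toRight.2 hp
          rw [hc] at this
          exact absurd this (notMem_empty _)
        · exact hc _ (mem_toRight.2 hp) _ (mem_toRight.2 hq)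
  · -- the cross-index
    have h1 : ∀ i, i ≤ r → Maps (bcx adj hg R n) (GComplex.sd^[i] (bcx adj hg R (rad Δ n i))) := by
      intro i
      induction i with
      | zero => exact fun _ => Maps.refl _
      | succ i ih =>
        intro hi
        refine (ih (by omega)).trans ?_
        have hle : rad Δ n i ≤ ρ := rad_mono Δ n (by omega)
        exact (step hs hg hNB (by omega) hdeg (rad Δ n i) (rad Δ n (i + 1)) (by omega)
          rfl).sd_iter i
    have h2 : Maps (bcx adj hg R ρ) (ballCx (BR adj R ρ) h0 BR_down BR_sing (BR_inv hg) m) := by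
      refine ⟨fun v : B × G => (Sum.inl v : (B × G) ⊕ (Fin (m + 1) × G)), ?_, ?_⟩
      · intro s hs'
        refine ⟨s.map (Function.Embedding.inl : B × G ↪ (B × G) ⊕ (Fin (m + 1) × G)), ?_, ?_⟩
        · exact CF_inl s hs'
        · intro v hv
          exact mem_map.2 ⟨v, hv, rfl⟩
      · intro g v
        rfl
    exact (bcx_ge hs hg n hlab R).trans
      (((h1 r le_rfl).trans (h2.sd_iter r)).face.xind_le)


theorem ind_le' {K : GComplex G} {m : ℕ} (h : ContMap K (E G m)) : ind G K.Realization ≤ m := sInf_le ⟨m, rfl, h⟩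

theorem contMap_of_ind {K : GComplex G} {m : ℕ} (h : ind G K.Realization = m) : ContMap K (E G m) := by
  have hne : {n : ℕ∞ | ∃ k : ℕ, n = k ∧ ContMap K (E G k)}.Nonempty := by
    by_contra hcon
    rw [Set.not_nonempty_iff_eq_empty] at hcon
    have h1 : ind G K.Realization = ⊤ := by
      change sInf {n : ℕ∞ | ∃ k : ℕ, n = k ∧ ContMap K (E G k)} = ⊤
      rw [hcon, sInf_empty]
    rw [h1] at h
    exact absurd h (ENat.natCast_ne_top m).symm
  obtain ⟨k, hk, hc⟩ := csInf_mem hne
  have h2 : sInf {n : ℕ∞ | ∃ k : ℕ, n = k ∧ ContMap K (E G k)} = m := h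
  rw [h2] at hk
  have : m = k := by exact_mod_cast hk
  rw [this]; exact hc

theorem ind_eq (hG : 2 ≤ Fintype.card G) {K : GComplex G} {m : ℕ} (h1 : Maps (E G m) K) (h2 : ContMap K (E G m)) :
    ind G K.Realization = m := by
  obtain ⟨φ, h3, h4⟩ := h1
  exact le_antisymm (ind_le' h2) (ind_ge hG K φ h3 h4)

/-- faces of `E_m G` have at most `m + 1` vertices -/
theorem card_face_E (m : ℕ) {s : Finset (E G m).V} (hs : s ∈ (E G m).K.faces) : s.card ≤ m + 1 := by
  classical
  let s' : Finset (Fin (m + 1) × G) := s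
  have h1 : (s'.image Prod.fst).card = s'.card := card_image_of_injOn fun p hp q hq h => hs.2 p hp q hq h
  have h2 : (s'.image Prod.fst).card ≤ m + 1 := (card_le_univ _).trans (by rw [Fintype.card_fin])
  change s'.card ≤ m + 1
  omega

theorem maps_skel {K : GComplex G} {m k : ℕ} (h : Maps (E G m) K) (hk : m ≤ k) : Maps (E G m) (skel K k) := by
  classical
  obtain ⟨φ, h1, h2⟩ := h
  refine ⟨φ, fun s hs => ⟨s.image φ, ⟨?_, ?_⟩, fun v hv => mem_image_of_mem φ hv⟩, h2⟩
  · obtain ⟨t, ht, h3⟩ := h1 s hs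
    refine (K.K.isRelLowerSet_faces ht).2 (fun v hv => ?_) ((((E G m).K.isRelLowerSet_faces hs).1).image φ)
    obtain ⟨u, hu, rfl⟩ := mem_image.1 hv
    exact h3 u hu
  · exact card_image_le.trans ((card_face_E m hs).trans (by omega))

/-- **Exact pairs.** -/
theorem exact_pairs (hG : 2 ≤ Fintype.card G) (r : ℕ) {m n : ℕ} (hm : 1 ≤ m) (hmn : m ≤ n) :
    ∃ K : GComplex G, K.IsFree ∧ ind G K.Realization = m ∧ Xind (GComplex.sd^[r] K).facePoset = n := by
  obtain ⟨K, h1, h2, h3, h4⟩ := exists_sd' G hG r m n hm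
  obtain ⟨k, hk, h5⟩ := exists_skel h1 r n h4
  exact ⟨skel K k, skel_free h1 k, ind_eq hG (maps_skel h2 (hmn.trans hk)) ((contMap_of_maps (skel_maps K k)).trans h3), h5⟩

end Pool.Agent.KS6_6.XI
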