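import Mathlib
import Pool.Agent.KS6_6.XI.B

/-!
# The index is at most the cross-index of every subdivision
-/

set_option autoImplicit false

namespace Pool.Agent.KS6_6.XI

open Finset Q151.XI

variable {G : Type} [Group G]

open Classical in
/-- the weight of a face -/
noncomputable def wt {V : Type} [Fintype V] (s : Finset V) (x : V → ℝ) : ℝ :=
  (∏ v, if v ∈ s then x v else 1) * ∏ v, ∏ w, if v ∈ s ∧ w ∉ s then max 0 (x v - x w) else 1

theorem wt_nonneg {V : Type} [Fintype V] (s : Finset V) {x : V → ℝ} (hx : ∀ v, 0 ≤ x v) : 0 ≤ wt s x := by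
  classical
  unfold wt
  apply mul_nonneg
  · apply prod_nonneg; intro v _; split_ifs
    · exact hx v
    · exact zero_le_one
  · apply prod_nonneg; intro v _; apply prod_nonneg; intro w _; split_ifs
    · exact le_max_left _ _
    · exact zero_le_one

theorem wt_pos_iff {V : Type} [Fintype V] (s : Finset V) {x : V → ℝ} (hx : ∀ v, 0 ≤ x v) :
    wt s x ≠ 0 ↔ (∀ v ∈ s, 0 < x v) ∧ ∀ v ∈ s, ∀ w, w ∉ s → x w < x v := by
  classical
  unfold wt
  rw [mul_ne_zero_iff, prod_ne_zero_iff]
  refine and_congr ⟨fun h v hv => ?_, fun h v _ => ?_⟩ ⟨fun h v hv w hw => ?_, fun h => ?_⟩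
  · have := h v (mem_univ v)
    rw [if_pos hv] at this
    exact lt_of_le_of_ne (hx v) (Ne.symm this)
  · split_ifs with hv
    · exact (h v hv).ne'
    · exact one_ne_zero
  · rw [prod_ne_zero_iff] at h
    have h1 := h v (mem_univ v)
    rw [prod_ne_zero_iff] at h1
    have h2 := h1 w (mem_univ w)
    rw [if_pos ⟨hv, hw⟩] at h2
    by_contra hcon
    push Not at hcon
    exact h2 (max_eq_left (by linarith))
  · rw [prod_ne_zero_iff]
    intro v _
    rw [prod_ne_zero_iff]
    intro w _
    split_ifs with hvw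
    · have h1 := h v hvw.1 w hvw.2
      rw [max_eq_right (by linarith)]
      linarith
    · exact one_ne_zero

theorem wt_continuous {V : Type} [Fintype V] (s : Finset V) : Continuous (wt s : (V → ℝ) → ℝ) := by
  classical
  unfold wt
  apply Continuous.mul
  · apply continuous_finsetProd; intro v _; split_ifs
    · exact continuous_apply v
    · exact continuous_const
  · apply continuous_finsetProd; intro v _; apply continuous_finsetProd; intro w _; split_ifs
    · exact continuous_const.max ((continuous_apply v).sub (continuous_apply w))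
    · exact continuous_const

theorem wt_smul (L : GComplex G) (g : G) (s : L.facePoset.P) (x : L.V → ℝ) :
    wt (vs L s) (fun v => x (g⁻¹ • v)) = wt (vs L (g⁻¹ • s)) x := by
  classical
  have h1 : ∀ v, v ∈ vs L s ↔ g⁻¹ • v ∈ vs L (g⁻¹ • s) := by
    intro v
    rw [mem_smul]
    constructor
    · exact fun h => ⟨v, h, rfl⟩
    · rintro ⟨u, hu, he⟩
      rwa [← smul_left_cancel g⁻¹ he]
  unfold wt
  congr 1
  · refine Fintype.prod_equiv (MulAction.toPerm g⁻¹) _ _ fun v => ?_
    change _ = if g⁻¹ • v ∈ vs L (g⁻¹ • s) then x (g⁻¹ • v) else 1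
    simp only [h1 v]
  · refine Fintype.prod_equiv (MulAction.toPerm g⁻¹) _ _ fun v => ?_
    refine Fintype.prod_equiv (MulAction.toPerm g⁻¹) _ _ fun w => ?_
    change _ = if g⁻¹ • v ∈ vs L (g⁻¹ • s) ∧ g⁻¹ • w ∉ vs L (g⁻¹ • s) then max 0 (x (g⁻¹ • v) - x (g⁻¹ • w)) else 1
    simp only [h1 v, h1 w]

/-- the sum of the weights -/
noncomputable def tw (L : GComplex G) (x : L.V → ℝ) : ℝ := ∑ s : L.facePoset.P, wt (vs L s) x

theorem tw_pos (L : GComplex G) (x : L.Realization) : 0 < tw L x.val := by
  classical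
  have hex : ∃ v ∈ (univ : Finset L.V), ∀ u ∈ (univ : Finset L.V), x.val u ≤ x.val v := by
    apply exists_max_image
    by_contra hcon
    rw [not_nonempty_iff_eq_empty] at hcon
    have h1 := x.sum_eq
    rw [hcon, sum_empty] at h1
    exact zero_ne_one h1
  obtain ⟨v, -, hv⟩ := hex
  have hvpos : 0 < x.val v := by
    by_contra hcon
    push Not at hcon
    have h1 := x.sum_eq
    rw [sum_eq_zero fun u _ => le_antisymm ((hv u (mem_univ u)).trans hcon) (x.nonneg u)] at h1
    exact zero_ne_one h1
  let s : Finset L.V := univ.filter fun u => x.val u = x.val v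
  have hs : s ∈ L.K.faces := by
    obtain ⟨t, ht, h⟩ := x.supp
    refine (L.K.isRelLowerSet_faces ht).2 (fun u hu => h u ?_) ⟨v, mem_filter.2 ⟨mem_univ _, rfl⟩⟩
    rw [(mem_filter.1 hu).2]; exact hvpos.ne'
  let s' : L.facePoset.P := (⟨s, hs⟩ : {s // s ∈ L.K.faces})
  refine sum_pos' (fun t _ => wt_nonneg _ x.nonneg) ⟨s', mem_univ _, ?_⟩
  refine lt_of_le_of_ne (wt_nonneg _ x.nonneg) (Ne.symm ((wt_pos_iff _ x.nonneg).2 ⟨fun u hu => ?_, fun u hu w hw => ?_⟩))
  · rw [(mem_filter.1 hu).2]; exact hvpos
  · rw [(mem_filter.1 hu).2]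
    refine lt_of_le_of_ne (hv w (mem_univ w)) fun h => hw (mem_filter.2 ⟨mem_univ _, h⟩)

/-- the map of a complex to its barycentric subdivision -/
noncomputable def toSd (L : GComplex G) (x : L.Realization) : L.sd.Realization where
  val := fun s => wt (vs L s) x.val / tw L x.val
  nonneg := fun s => div_nonneg (wt_nonneg _ x.nonneg) (tw_pos L x).le
  sum_eq := by
    rw [← sum_div]
    exact div_self (tw_pos L x).ne'
  supp := by
    classical
    refine ⟨univ.filter fun s : L.facePoset.P => wt (vs L s) x.val ≠ 0, ⟨?_, ?_⟩, fun s hs => ?_⟩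
    · by_contra hcon
      have h0 : (univ.filter fun s : L.facePoset.P => wt (vs L s) x.val ≠ 0) = ∅ := not_nonempty_iff_eq_empty.1 hcon
      rw [filter_eq_empty_iff] at h0
      have h1 := tw_pos L x
      unfold tw at h1
      rw [sum_eq_zero fun s hs => not_not.1 (h0 hs)] at h1
      exact lt_irrefl _ h1
    · intro s hs t ht
      have h1 := (wt_pos_iff _ x.nonneg).1 (mem_filter.1 hs).2
      have h2 := (wt_pos_iff _ x.nonneg).1 (mem_filter.1 ht).2
      change vs L s ⊆ vs L t ∨ vs L t ⊆ vs L s
      by_contra hcon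
      push Not at hcon
      obtain ⟨v, hv1, hv2⟩ := not_subset.1 hcon.1
      obtain ⟨w, hw1, hw2⟩ := not_subset.1 hcon.2
      exact lt_asymm (h1.2 v hv1 w hw2) (h2.2 w hw1 v hv2)
    · refine mem_filter.2 ⟨mem_univ _, fun h => hs ?_⟩
      rw [h, zero_div]

theorem contMap_sd (L : GComplex G) : ContMap L L.sd := by
  refine ⟨toSd L, ?_, ?_⟩
  · rw [continuous_iff_val]
    intro (s : L.facePoset.P)
    have h1 : Continuous fun x : L.Realization => tw L x.val := by
      unfold tw
      apply continuous_finsetSum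
      intro s _
      exact (wt_continuous _).comp (continuous_val L)
    exact ((wt_continuous _).comp (continuous_val L)).div h1 fun x => (tw_pos L x).ne'
  · intro g x
    have key : ∀ s : L.facePoset.P, wt (vs L s) (g • x).val = wt (vs L (g⁻¹ • s)) x.val := fun s => wt_smul L g s x.val
    have htw : tw L (g • x).val = tw L x.val := by
      unfold tw
      exact Fintype.sum_equiv (MulAction.toPerm g⁻¹) _ _ fun s => key s
    apply GComplex.Realization.ext
    refine funext fun (s : L.facePoset.P) => ?_
    exact congrArg₂ (· / ·) (key s) htw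

theorem contMap_refl (K : GComplex G) : ContMap K K := ⟨id, continuous_id, fun _ _ => rfl⟩

theorem contMap_iter (K : GComplex G) (r : ℕ) : ContMap K (GComplex.sd^[r] K) := by
  induction r with
  | zero => exact contMap_refl _
  | succ r ih =>
    rw [Function.iterate_succ_apply']
    exact ih.trans (contMap_sd _)

variable [Fintype G]

theorem Q_to_E (n : ℕ) : Maps (Q G n).orderComplex (E G n) := by
  let φ : G × Fin (n + 1) → Fin (n + 1) × G := fun p => (p.2, p.1)
  refine ⟨φ, ?_, fun g v => rfl⟩
  refine simp_to_E (Q G n).orderComplex (k := n) φ ?_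
  intro s hs p hp q hq h
  have h1 : p = q := by
    rcases hs.2 p hp q hq with h2 | h2
    · rcases h2 with h2 | h2
      · exact h2
      · exact absurd h (ne_of_lt h2)
    · rcases h2 with h2 | h2
      · exact h2.symm
      · exact absurd h.symm (ne_of_lt h2)
  rw [h1]

/-- the index is at most the cross-index of every subdivision -/
theorem ind_le_xind (K : GComplex G) (r : ℕ) {n : ℕ} (h : PMaps (GComplex.sd^[r] K).facePoset (Q G n)) : ContMap K (E G n) := by
  have h1 : Maps (GComplex.sd^[r] K).sd (E G n) := h.order.trans (Q_to_E n)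
  exact ((contMap_iter K r).trans (contMap_sd _)).trans (contMap_of_maps h1)

end Pool.Agent.KS6_6.XI
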