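import Mathlib
import Pool.Agent.KS6_6.XI.C

/-!
# Subdivisions are fine: equivariant simplicial approximation of maps to `E_m G`
-/

set_option autoImplicit false

namespace Pool.Agent.KS6_6.XI

open Finset Q151.XI

variable {G : Type} [Group G]

/-- `L` is a subdivision of `K` with mesh at most `δ`: positions of its vertices -/
def Good (K L : GComplex G) (D : ℕ) (δ : ℝ) : Prop := ∃ pos : L.V → K.V → ℝ,
  (∀ v u, 0 ≤ pos v u) ∧ (∀ v, ∑ u, pos v u = 1) ∧
  (∀ s ∈ L.K.faces, ∃ σ ∈ K.K.faces, ∀ v ∈ s, ∀ u, pos v u ≠ 0 → u ∈ σ) ∧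
  (∀ (g : G) v u, pos (g • v) u = pos v (g⁻¹ • u)) ∧
  (∀ s ∈ L.K.faces, s.card ≤ D) ∧
  (∀ s ∈ L.K.faces, ∀ v ∈ s, ∀ w ∈ s, ∀ u, |pos v u - pos w u| ≤ δ)

theorem good_zero (K : GComplex G) : Good K K (Fintype.card K.V + 1) 1 := by
  classical
  refine ⟨fun v u => if u = v then 1 else 0, fun v u => by dsimp only; split_ifs <;> norm_num, fun v => ?_, fun s hs => ⟨s, hs, ?_⟩,
    fun g v u => ?_, fun s _ => (card_le_univ s).trans (Nat.le_succ _), fun s _ v _ w _ u => ?_⟩
  · rw [sum_ite_eq']; simp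
  · intro v hv u hu
    by_cases h : u = v
    · rw [h]; exact hv
    · exact absurd (if_neg h) hu
  · have h1 : u = g • v ↔ g⁻¹ • u = v := by
      constructor
      · rintro rfl; exact inv_smul_smul g v
      · rintro rfl; exact (smul_inv_smul g u).symm
    simp only [h1]
  · dsimp only
    split_ifs <;> norm_num

theorem Good.sd {K L : GComplex G} {D : ℕ} {δ : ℝ} (hD : 1 ≤ D) (hδ : 0 ≤ δ) (h : Good K L D δ) :
    Good K L.sd D ((1 - 1 / D) * δ) := by
  classical
  obtain ⟨pos, h1, h2, h3, h4, h5, h6⟩ := h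
  have hne : ∀ s : L.facePoset.P, (vs L s).Nonempty := fun s => (L.K.isRelLowerSet_faces (vs_prop L s)).1
  have hc : ∀ s : L.facePoset.P, (0 : ℝ) < (vs L s).card := fun s => by exact_mod_cast card_pos.2 (hne s)
  have hDr : (1 : ℝ) ≤ D := by exact_mod_cast hD
  -- the estimate for comparable faces
  have key : ∀ s t : L.facePoset.P, vs L s ⊆ vs L t → ∀ u,
      |(∑ v ∈ vs L s, pos v u) / (vs L s).card - (∑ w ∈ vs L t, pos w u) / (vs L t).card| ≤ (1 - 1 / D) * δ := by
    intro s t hst u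
    obtain ⟨a, ha⟩ : ∃ a : ℝ, a = (vs L s).card := ⟨_, rfl⟩
    obtain ⟨b, hb⟩ : ∃ b : ℝ, b = (vs L t).card := ⟨_, rfl⟩
    have ha0 : 0 < a := by rw [ha]; exact hc s
    have hb0 : 0 < b := by rw [hb]; exact hc t
    have hbD : b ≤ D := by rw [hb]; exact_mod_cast h5 _ (vs_prop L t)
    have e1 : (∑ v ∈ vs L s, pos v u) / a - (∑ w ∈ vs L t, pos w u) / b
        = (∑ v ∈ vs L s, ∑ w ∈ vs L t, (pos v u - pos w u)) / (a * b) := by
      have e2 : ∑ v ∈ vs L s, ∑ w ∈ vs L t, (pos v u - pos w u)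
          = b * (∑ v ∈ vs L s, pos v u) - a * ∑ w ∈ vs L t, pos w u := by
        simp only [sum_sub_distrib, sum_const, nsmul_eq_mul, ← mul_sum]
        rw [← ha, ← hb]
      rw [e2]
      field_simp
    rw [← ha, ← hb, e1, abs_div, abs_of_pos (mul_pos ha0 hb0), div_le_iff₀ (mul_pos ha0 hb0)]
    have e3 : ∀ v ∈ vs L s, ∑ w ∈ vs L t, |pos v u - pos w u| ≤ (b - 1) * δ := by
      intro v hv
      rw [← add_sum_erase _ _ (hst hv), sub_self, abs_zero, zero_add]
      calc ∑ w ∈ (vs L t).erase v, |pos v u - pos w u| ≤ ∑ w ∈ (vs L t).erase v, δ :=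
            sum_le_sum fun w hw => h6 _ (vs_prop L t) v (hst hv) w (mem_of_mem_erase hw) u
        _ = (b - 1) * δ := by
            rw [sum_const, nsmul_eq_mul, card_erase_of_mem (hst hv), Nat.cast_sub (card_pos.2 (hne t)), ← hb, Nat.cast_one]
    calc |∑ v ∈ vs L s, ∑ w ∈ vs L t, (pos v u - pos w u)|
        ≤ ∑ v ∈ vs L s, |∑ w ∈ vs L t, (pos v u - pos w u)| := abs_sum_le_sum_abs _ _
      _ ≤ ∑ v ∈ vs L s, (b - 1) * δ := sum_le_sum fun v hv => (abs_sum_le_sum_abs _ _).trans (e3 v hv)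
      _ = a * ((b - 1) * δ) := by rw [sum_const, nsmul_eq_mul, ← ha]
      _ ≤ (1 - 1 / D) * δ * (a * b) := by
          have h7 : b - 1 ≤ (1 - 1 / D) * b := by
            have : 1 / (D : ℝ) * b ≤ 1 := by
              rw [one_div, inv_mul_le_iff₀ (by linarith)]; linarith
            linarith
          have h8 := mul_le_mul_of_nonneg_right (mul_le_mul_of_nonneg_right h7 hδ) ha0.le
          linarith
  refine ⟨fun s u => (∑ v ∈ vs L s, pos v u) / (vs L s).card, ?_, ?_, ?_, ?_, ?_, ?_⟩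
  · intro s u
    exact div_nonneg (sum_nonneg fun v _ => h1 v u) (Nat.cast_nonneg _)
  · intro (s : L.facePoset.P)
    change ∑ u, (∑ v ∈ vs L s, pos v u) / ((vs L s).card : ℝ) = 1
    rw [← sum_div, sum_comm, sum_congr rfl fun v _ => h2 v, sum_const, nsmul_eq_mul, mul_one]
    exact div_self (hc s).ne'
  · intro c hc'
    let c' : L.facePoset.orderComplex.facePoset.P := (⟨c, hc'⟩ : {s // s ∈ L.facePoset.orderComplex.K.faces})
    obtain ⟨σ, hσ, h7⟩ := h3 _ (vs_prop L (top L.facePoset c'))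
    refine ⟨σ, hσ, fun (s : L.facePoset.P) hs u hu => ?_⟩
    have hs' : vs L s ⊆ vs L (top L.facePoset c') := le_top L.facePoset c' hs
    have hex : ∃ v ∈ vs L s, pos v u ≠ 0 := by
      by_contra hcon
      push Not at hcon
      apply hu
      change (∑ v ∈ vs L s, pos v u) / ((vs L s).card : ℝ) = 0
      rw [sum_eq_zero hcon, zero_div]
    obtain ⟨v, hv, hvu⟩ := hex
    exact h7 v (hs' hv) u hvu
  · intro g (s : L.facePoset.P) u
    change (∑ v ∈ (vs L s).map (MulAction.toPerm g).toEmbedding, pos v u)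
      / (((vs L s).map (MulAction.toPerm g).toEmbedding).card : ℝ) = (∑ v ∈ vs L s, pos v (g⁻¹ • u)) / ((vs L s).card : ℝ)
    rw [card_map, sum_map]
    congr 1
    exact sum_congr rfl fun v _ => h4 g v u
  · intro c hc'
    have h7 : c.card ≤ (Icc 1 D).card := by
      refine card_le_card_of_injOn (fun s : L.facePoset.P => (vs L s).card) ?_ ?_
      · intro s _
        rw [mem_coe, mem_Icc]
        exact ⟨card_pos.2 (hne s), h5 _ (vs_prop L s)⟩
      · intro s hs t ht hst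
        rcases hc'.2 s hs t ht with h | h
        · exact Subtype.ext (eq_of_subset_of_card_le h (le_of_eq hst.symm))
        · exact (Subtype.ext (eq_of_subset_of_card_le h (le_of_eq hst))).symm
    rw [Nat.card_Icc] at h7
    omega
  · intro c hc' (s : L.facePoset.P) hs (t : L.facePoset.P) ht u
    rcases hc'.2 s hs t ht with h | h
    · exact key s t h u
    · have := key t s h u
      rw [abs_sub_comm] at this
      exact this

theorem good_iter (K : GComplex G) (t : ℕ) :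
    Good K (GComplex.sd^[t] K) (Fintype.card K.V + 1) ((1 - 1 / ((Fintype.card K.V + 1 : ℕ) : ℝ)) ^ t) := by
  induction t with
  | zero => rw [pow_zero]; exact good_zero K
  | succ t ih =>
    rw [Function.iterate_succ_apply', pow_succ']
    refine ih.sd (by omega) (pow_nonneg ?_ _)
    rw [sub_nonneg, div_le_one (by positivity)]
    push_cast
    have : (0 : ℝ) ≤ Fintype.card K.V := Nat.cast_nonneg _
    linarith

/-- the position of a vertex -/
theorem Good.point {K L : GComplex G} {D : ℕ} {δ : ℝ} (h : Good K L D δ) : ∃ P : L.V → K.Realization,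
    (∀ (g : G) v, P (g • v) = g • P v) ∧ (∀ s ∈ L.K.faces, s.card ≤ D) ∧
    (∀ s ∈ L.K.faces, ∃ σ ∈ K.K.faces, ∀ v ∈ s, ∀ u, (P v).val u ≠ 0 → u ∈ σ) ∧
    ∀ s ∈ L.K.faces, ∀ v ∈ s, ∀ w ∈ s, ∀ u, |(P v).val u - (P w).val u| ≤ δ := by
  classical
  obtain ⟨pos, h1, h2, h3, h4, h5, h6⟩ := h
  have hs : ∀ v, ∃ σ ∈ K.K.faces, ∀ u, pos v u ≠ 0 → u ∈ σ := fun v => by
    obtain ⟨σ, hσ, h⟩ := h3 {v} (L.K.singleton_mem v)
    exact ⟨σ, hσ, h v (mem_singleton_self v)⟩
  refine ⟨fun v => ⟨pos v, h1 v, h2 v, hs v⟩, fun g v => ?_, h5, h3, h6⟩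
  apply GComplex.Realization.ext
  funext u
  exact h4 g v u

/-- the linear map of a subdivision to the complex -/
theorem Good.contMap {K L : GComplex G} {D : ℕ} {δ : ℝ} (h : Good K L D δ) : ContMap L K := by
  classical
  obtain ⟨pos, h1, h2, h3, h4, h5, h6⟩ := h
  refine ⟨fun x => ⟨fun u => ∑ v, x.val v * pos v u, fun u => sum_nonneg fun v _ => mul_nonneg (x.nonneg v) (h1 v u), ?_, ?_⟩,
    ?_, ?_⟩
  · rw [sum_comm, sum_congr rfl fun v _ => (mul_sum _ _ _).symm]
    simp only [h2, mul_one]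
    exact x.sum_eq
  · obtain ⟨s, hs, hx⟩ := x.supp
    obtain ⟨σ, hσ, hσ'⟩ := h3 s hs
    refine ⟨σ, hσ, fun u hu => ?_⟩
    obtain ⟨v, -, hv⟩ := exists_ne_zero_of_sum_ne_zero hu
    exact hσ' v (hx v (left_ne_zero_of_mul hv)) u (right_ne_zero_of_mul hv)
  · rw [continuous_iff_val]
    intro u
    exact continuous_finsetSum _ fun v _ => ((continuous_apply v).comp (continuous_val L)).mul continuous_const
  · intro g x
    apply GComplex.Realization.ext
    funext u
    change ∑ v, x.val (g⁻¹ • v) * pos v u = ∑ v, x.val v * pos v (g⁻¹ • u)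
    refine Fintype.sum_equiv (MulAction.toPerm g⁻¹) _ _ fun v => ?_
    change x.val (g⁻¹ • v) * pos v u = x.val (g⁻¹ • v) * pos (g⁻¹ • v) (g⁻¹ • u)
    rw [h4, inv_inv, smul_inv_smul]

theorem contMap_sd_iter (K : GComplex G) (t : ℕ) : ContMap (GComplex.sd^[t] K) K := (good_iter K t).contMap

/-! ### uniform continuity -/

/-- the image of the realization -/
def RS (K : GComplex G) : Set (K.V → ℝ) :=
  {z | (∀ v, 0 ≤ z v) ∧ ∑ v, z v = 1 ∧ ∃ s ∈ K.K.faces, ∀ v, z v ≠ 0 → v ∈ s}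

theorem RS_compact (K : GComplex G) : IsCompact (RS K) := by
  classical
  apply Metric.isCompact_of_isClosed_isBounded
  · have e : RS K = ⋃ s ∈ {s : Finset K.V | s ∈ K.K.faces}, {z | (∀ v, 0 ≤ z v) ∧ ∑ v, z v = 1 ∧ ∀ v, v ∉ s → z v = 0} := by
      ext z
      simp only [RS, Set.mem_ofPred_eq, Set.mem_iUnion, exists_prop]
      constructor
      · rintro ⟨h1, h2, s, hs, h3⟩
        exact ⟨s, hs, h1, h2, fun v hv => by by_contra h; exact hv (h3 v h)⟩
      · rintro ⟨s, hs, h1, h2, h3⟩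
        exact ⟨h1, h2, s, hs, fun v hv => by by_contra h; exact hv (h3 v h)⟩
    rw [e]
    refine Set.Finite.isClosed_biUnion (Set.toFinite _) fun s _ => ?_
    refine IsClosed.inter ?_ (IsClosed.inter ?_ ?_)
    · have : {z : K.V → ℝ | ∀ v, 0 ≤ z v} = ⋂ v, {z | 0 ≤ z v} := by ext z; simp
      change IsClosed {z : K.V → ℝ | ∀ v, 0 ≤ z v}
      rw [this]
      exact isClosed_iInter fun v => isClosed_le continuous_const (continuous_apply v)
    · exact isClosed_eq (continuous_finsetSum _ fun v _ => continuous_apply v) continuous_const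
    · have : {z : K.V → ℝ | ∀ v, v ∉ s → z v = 0} = ⋂ v, ⋂ (_ : v ∉ s), {z | z v = 0} := by ext z; simp
      change IsClosed {z : K.V → ℝ | ∀ v, v ∉ s → z v = 0}
      rw [this]
      exact isClosed_iInter fun v => isClosed_iInter fun _ => isClosed_eq (continuous_apply v) continuous_const
  · rw [isBounded_iff_forall_norm_le]
    refine ⟨1, fun z hz => ?_⟩
    rw [pi_norm_le_iff_of_nonneg zero_le_one]
    intro v
    rw [Real.norm_of_nonneg (hz.1 v), ← hz.2.1]
    exact single_le_sum (fun u _ => hz.1 u) (mem_univ v)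

variable [Fintype G]

theorem unif {K : GComplex G} {m : ℕ} {f : K.Realization → (E G m).Realization} (hf : Continuous f) {ε : ℝ} (hε : 0 < ε) :
    ∃ δ : ℝ, 0 < δ ∧ ∀ x y : K.Realization, (∀ u, |x.val u - y.val u| < δ) → ∀ p, |co (f x) p - co (f y) p| < ε := by
  classical
  let F : (K.V → ℝ) → (Fin (m + 1) × G → ℝ) := fun z => if h : z ∈ RS K then co (f ⟨z, h.1, h.2.1, h.2.2⟩) else 0
  have hF : ContinuousOn F (RS K) := by
    rw [continuousOn_iff_continuous_domRestrict]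
    have h1 : Continuous fun z : RS K => (⟨z.1, z.2.1, z.2.2.1, z.2.2.2⟩ : K.Realization) := by
      rw [continuous_iff_val]
      intro v
      exact (continuous_apply v).comp continuous_subtype_val
    have h2 := (co_continuous (G := G) (k := m)).comp (hf.comp h1)
    refine h2.congr fun z => ?_
    simp only [F, Set.domRestrict_apply, dif_pos z.2, Function.comp_apply]
  have hU := (RS_compact K).uniformContinuousOn_of_continuous hF
  rw [Metric.uniformContinuousOn_iff] at hU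
  obtain ⟨δ, hδ, h⟩ := hU ε hε
  refine ⟨δ, hδ, fun x y hxy p => ?_⟩
  have hx : x.val ∈ RS K := ⟨x.nonneg, x.sum_eq, x.supp⟩
  have hy : y.val ∈ RS K := ⟨y.nonneg, y.sum_eq, y.supp⟩
  have h1 := h x.val hx y.val hy ((dist_pi_lt_iff hδ).2 fun u => by rw [Real.dist_eq]; exact hxy u)
  have h2 := (dist_pi_lt_iff hε).1 h1 p
  rw [Real.dist_eq] at h2
  simp only [F, dif_pos hx, dif_pos hy] at h2
  exact h2

/-- Equivariant simplicial approximation of a map to `E_m G`. -/
theorem approx {K : GComplex G} {m : ℕ} (h : ContMap K (E G m)) : ∃ T : ℕ, ∀ t, T ≤ t → Maps (GComplex.sd^[t] K) (E G m) := by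
  classical
  obtain ⟨f, hf, he⟩ := h
  obtain ⟨M, hM⟩ : ∃ M : ℕ, M = Fintype.card (Fin (m + 1) × G) := ⟨_, rfl⟩
  have hM0 : 0 < M := by rw [hM]; exact Fintype.card_pos
  have hMr : (0 : ℝ) < M := by exact_mod_cast hM0
  obtain ⟨δ, hδ, hu⟩ := unif hf (ε := 1 / M) (by positivity)
  obtain ⟨D, hD⟩ : ∃ D : ℕ, D = Fintype.card K.V + 1 := ⟨_, rfl⟩
  have hD1 : (1 : ℝ) ≤ D := by rw [hD]; push_cast; have : (0 : ℝ) ≤ Fintype.card K.V := Nat.cast_nonneg _; linarith
  have hq0 : (0 : ℝ) ≤ 1 - 1 / D := by rw [sub_nonneg, div_le_one (by linarith)]; exact hD1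
  have hq1 : (1 : ℝ) - 1 / D < 1 := by have : (0 : ℝ) < 1 / D := by positivity
                                       linarith
  obtain ⟨T, hT⟩ := exists_pow_lt_of_lt_one hδ hq1
  refine ⟨T, fun t ht => ?_⟩
  have hgood := good_iter K t
  rw [← hD] at hgood
  generalize GComplex.sd^[t] K = L at hgood ⊢
  obtain ⟨P, hP1, -, -, hP2⟩ := hgood.point
  have hlt : (1 - 1 / (D : ℝ)) ^ t < δ := lt_of_le_of_lt (pow_le_pow_of_le_one hq0 hq1.le ht) hT
  have hclose : ∀ s ∈ L.K.faces, ∀ v ∈ s, ∀ w ∈ s, ∀ p, |co (f (P v)) p - co (f (P w)) p| < 1 / M :=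
    fun s hs v hv w hw p => hu _ _ (fun u => lt_of_le_of_lt (hP2 s hs v hv w hw u) hlt) p
  -- the level of a vertex
  have hbig : ∀ v, ∃ p, 1 / (M : ℝ) ≤ co (f (P v)) p := by
    intro v
    by_contra hcon
    push Not at hcon
    have h1 := sum_co (f (P v))
    have h2 : ∑ p, co (f (P v)) p < ∑ _p : Fin (m + 1) × G, 1 / (M : ℝ) := by
      apply sum_lt_sum_of_nonempty
      · rw [← card_pos, card_univ, ← hM]; exact hM0
      · exact fun p _ => hcon p
    rw [sum_const, card_univ, ← hM, nsmul_eq_mul, mul_one_div_cancel hMr.ne', h1] at h2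
    exact lt_irrefl _ h2
  have hex : ∀ v, ∃ p : Fin (m + 1) × G, 1 / (M : ℝ) ≤ co (f (P v)) p ∧
      ∀ q : Fin (m + 1) × G, 1 / (M : ℝ) ≤ co (f (P v)) q → p.1 ≤ q.1 := by
    intro v
    obtain ⟨p, hp, hmin⟩ := exists_min_image (univ.filter fun p : Fin (m + 1) × G => 1 / (M : ℝ) ≤ co (f (P v)) p) Prod.fst
      (by obtain ⟨p, hp⟩ := hbig v; exact ⟨p, mem_filter.2 ⟨mem_univ _, hp⟩⟩)
    exact ⟨p, (mem_filter.1 hp).2, fun q hq => hmin q (mem_filter.2 ⟨mem_univ _, hq⟩)⟩
  choose φ hφ1 hφ2 using hex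
  have hpos : ∀ (x : (E G m).Realization) (p : Fin (m + 1) × G), 0 < co x p → co x (p.1, p.2) ≠ 0 := fun x p h => h.ne'
  have hM1 : (0 : ℝ) < 1 / M := by positivity
  refine ⟨φ, simp_to_E L (k := m) φ ?_, fun g v => ?_⟩
  · intro s hs v hv w hw hvw
    have h1 : co (f (P w)) (φ v) ≠ 0 := by
      have h2 := hclose s hs v hv w hw (φ v)
      have h3 := hφ1 v
      have h4 := (abs_lt.1 h2).2
      have : 0 < co (f (P w)) (φ v) := by linarith
      exact this.ne'
    have h5 : co (f (P w)) (φ w) ≠ 0 := (lt_of_lt_of_le hM1 (hφ1 w)).ne'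
    have h6 : (φ v).2 = (φ w).2 := by
      refine E_rel (f (P w)) (φ w).1 (φ v).2 (φ w).2 ?_ h5
      rw [← hvw]; exact h1
    exact Prod.ext hvw h6
  · change φ (g • v) = ((φ v).1, g * (φ v).2)
    have e1 : ∀ p : Fin (m + 1) × G, co (f (P (g • v))) p = co (f (P v)) (p.1, g⁻¹ * p.2) := by
      intro p
      rw [hP1, he]
      rfl
    have h1 : 1 / (M : ℝ) ≤ co (f (P (g • v))) ((φ v).1, g * (φ v).2) := by
      rw [e1, inv_mul_cancel_left]
      exact hφ1 v
    have h2 := hφ2 (g • v) _ h1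
    have h3 : 1 / (M : ℝ) ≤ co (f (P v)) ((φ (g • v)).1, g⁻¹ * (φ (g • v)).2) := by
      rw [← e1]; exact hφ1 (g • v)
    have h4 := hφ2 v _ h3
    have h5 : (φ (g • v)).1 = (φ v).1 := le_antisymm h2 h4
    refine Prod.ext h5 ?_
    refine E_rel (f (P (g • v))) (φ (g • v)).1 _ _ (lt_of_lt_of_le hM1 (hφ1 (g • v))).ne' ?_
    rw [h5]
    exact (lt_of_lt_of_le hM1 h1).ne'

end Pool.Agent.KS6_6.XI
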