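import Mathlib
import Pool.Agent.KS6_6.XI.D

/-!
# The number of subdivisions needed
-/

set_option autoImplicit false

namespace Pool.Agent.KS6_6.XI

open Finset Q151.XI

variable {G : Type} [Group G]

theorem sd_free {L : GComplex G} (hL : L.IsFree) : L.sd.IsFree := by
  classical
  intro g x hx
  obtain ⟨c, hc, h⟩ := x.supp
  -- the support is a chain
  let c0 : Finset L.facePoset.P := univ.filter fun s : L.facePoset.P => x.val s ≠ 0
  have hsub : c0 ⊆ c := fun s hs => h s (mem_filter.1 hs).2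
  have hne : c0.Nonempty := by
    by_contra hcon
    have h0 : c0 = ∅ := not_nonempty_iff_eq_empty.1 hcon
    have h1 := x.sum_eq
    have h2 : ∀ s : L.facePoset.P, x.val s = 0 := by
      intro s
      by_contra hs
      have : s ∈ c0 := mem_filter.2 ⟨mem_univ _, hs⟩
      rw [h0] at this
      exact notMem_empty _ this
    have h3 : ∑ v, x.val v = 0 := sum_eq_zero fun s _ => h2 s
    rw [h3] at h1
    exact zero_ne_one h1
  let c' : L.facePoset.orderComplex.facePoset.P :=
    (⟨c0, (L.sd.K.isRelLowerSet_faces hc).2 hsub hne⟩ : {s // s ∈ L.facePoset.orderComplex.K.faces})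
  have hinv : ∀ s : L.facePoset.P, x.val (g⁻¹ • s) = x.val s := by
    intro s
    have h1 : (g • x).val s = x.val s := by rw [hx]
    exact h1
  have htop : g • top L.facePoset c' = top L.facePoset c' := by
    have hm : ∀ s : L.facePoset.P, s ∈ c0 ↔ g⁻¹ • s ∈ c0 := by
      intro s
      simp only [c0, mem_filter, mem_univ, true_and]
      rw [hinv]
    have h1 : g • c' = c' := by
      apply Subtype.ext
      apply Finset.ext
      intro (s : L.facePoset.P)
      refine (mem_smul L.facePoset.orderComplex g c' s).trans ?_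
      constructor
      · rintro ⟨(u : L.facePoset.P), hu, rfl⟩
        have e : g⁻¹ • (g • (u : L.facePoset.P)) = u := inv_smul_smul g u
        have hu' : u ∈ c0 := hu
        exact (hm (g • (u : L.facePoset.P))).2 (by rw [e]; exact hu')
      · intro hs
        exact ⟨g⁻¹ • s, (hm s).1 hs, smul_inv_smul g s⟩
    rw [← top_smul, h1]
  exact face_free hL g _ htop

theorem sd_iter_free {L : GComplex G} (hL : L.IsFree) (r : ℕ) : (GComplex.sd^[r] L).IsFree := by
  induction r with
  | zero => exact hL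
  | succ r ih =>
    rw [Function.iterate_succ_apply']
    exact sd_free ih

theorem maps_skel' {L K : GComplex G} {k : ℕ} (h : Maps L K) (hk : ∀ s ∈ L.K.faces, s.card ≤ k + 1) : Maps L (skel K k) := by
  classical
  obtain ⟨φ, h1, h2⟩ := h
  refine ⟨φ, fun s hs => ⟨s.image φ, ⟨?_, ?_⟩, fun v hv => mem_image_of_mem φ hv⟩, h2⟩
  · obtain ⟨t, ht, h3⟩ := h1 s hs
    refine (K.K.isRelLowerSet_faces ht).2 (fun v hv => ?_) (((L.K.isRelLowerSet_faces hs).1).image φ)
    obtain ⟨u, hu, rfl⟩ := mem_image.1 hv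
    exact h3 u hu
  · exact card_image_le.trans (hk s hs)

theorem card_sd_iter (L : GComplex G) (D : ℕ) (hD : ∀ s ∈ L.K.faces, s.card ≤ D) (t : ℕ) :
    ∀ s ∈ (GComplex.sd^[t] L).K.faces, s.card ≤ D := by
  classical
  induction t with
  | zero => exact hD
  | succ t ih =>
    rw [Function.iterate_succ_apply']
    generalize GComplex.sd^[t] L = L' at ih ⊢
    intro c hc'
    have h7 : c.card ≤ (Icc 1 D).card := by
      refine card_le_card_of_injOn (fun s : L'.facePoset.P => (vs L' s).card) ?_ ?_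
      · intro s _
        rw [mem_coe, mem_Icc]
        exact ⟨card_pos.2 (L'.K.isRelLowerSet_faces (vs_prop L' s)).1, ih _ (vs_prop L' s)⟩
      · intro s hs t ht hst
        rcases hc'.2 s hs t ht with h | h
        · exact Subtype.ext (eq_of_subset_of_card_le h (le_of_eq hst.symm))
        · exact (Subtype.ext (eq_of_subset_of_card_le h (le_of_eq hst))).symm
    rw [Nat.card_Icc] at h7
    omega

variable [Fintype G]

/-- the face poset of `E_m G` maps to `Q_m G` -/
theorem E_to_Q (m : ℕ) : PMaps (E G m).facePoset (Q G m) := by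
  classical
  let U : (E G m).facePoset.P → Finset (Fin (m + 1) × G) := vs (E G m)
  have hU : ∀ s, (U s).Nonempty ∧ ∀ p ∈ U s, ∀ q ∈ U s, p.1 = q.1 → p = q := fun s => vs_prop (E G m) s
  have hex : ∀ s, ∃ p ∈ U s, ∀ q ∈ U s, q.1 ≤ p.1 := fun s => exists_max_image (U s) Prod.fst (hU s).1
  choose φ hφ1 hφ2 using hex
  let F : (E G m).facePoset.P → G × Fin (m + 1) := fun s => ((φ s).2, (φ s).1)
  refine ⟨F, ?_, ?_⟩
  · intro s t hst
    change F s = F t ∨ (F s).2 < (F t).2
    have h1 : φ s ∈ U t := hst (hφ1 s)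
    rcases lt_or_eq_of_le (hφ2 t _ h1) with h | h
    · right; exact h
    · left
      have h2 := (hU t).2 _ h1 _ (hφ1 t) h
      simp only [F, h2]
  · intro g s
    change F (g • s) = (g * (F s).1, (F s).2)
    have hm : ∀ v : Fin (m + 1) × G, v ∈ U (g • s) ↔ ∃ u ∈ U s, (u.1, g * u.2) = v := fun v => mem_smul (E G m) g s v
    have h1 : ((φ s).1, g * (φ s).2) ∈ U (g • s) := (hm _).2 ⟨_, hφ1 s, rfl⟩
    obtain ⟨u, hu, hu'⟩ := (hm _).1 (hφ1 (g • s))
    have h2 := hφ2 (g • s) _ h1
    have h3 : (φ (g • s)).1 ≤ (φ s).1 := by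
      rw [← hu']
      exact hφ2 s u hu
    have h4 : ((φ s).1, g * (φ s).2) = φ (g • s) := (hU (g • s)).2 _ h1 _ (hφ1 (g • s)) (le_antisymm h2 h3)
    simp only [F, ← h4]

/-- the cross-index of the subdivisions is eventually at most the index -/
theorem eventually_pmaps {K : GComplex G} {m : ℕ} (h : ContMap K (E G m)) :
    ∃ T : ℕ, ∀ t, T ≤ t → PMaps (GComplex.sd^[t] K).facePoset (Q G m) := by
  obtain ⟨T, hT⟩ := approx h
  exact ⟨T, fun t ht => (hT t ht).face.trans (E_to_Q m)⟩

theorem pmaps_mono {K : GComplex G} {m s t : ℕ} (hst : s ≤ t) (h : PMaps (GComplex.sd^[s] K).facePoset (Q G m)) :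
    PMaps (GComplex.sd^[t] K).facePoset (Q G m) := by
  obtain ⟨j, rfl⟩ : ∃ j, t = j + s := ⟨t - s, by omega⟩
  rw [Function.iterate_add_apply]
  exact (pmaps_iter _ j).trans h

theorem ind_eq' (hG : 2 ≤ Fintype.card G) {K : GComplex G} {m : ℕ} (h1 : ContMap (E G m) K) (h2 : ContMap K (E G m)) :
    ind G K.Realization = m := by
  refine le_antisymm (ind_le' h2) (le_sInf ?_)
  rintro n ⟨k, rfl, h3⟩
  by_contra hlt
  have hk : k < m := by
    by_contra hk
    push Not at hk
    exact hlt (by exact_mod_cast hk)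
  obtain ⟨f, hf, he⟩ := h1.trans h3
  exact dold hG hk f hf he

theorem ind_le_of_xind (K : GComplex G) (r n : ℕ) (h : Xind (GComplex.sd^[r] K).facePoset = n) : ind G K.Realization ≤ n :=
  ind_le' (ind_le_xind K r (pmaps_of_xind h.le))

/-- the `r`-th subdivision has cross-index `n`, the next one less -/
theorem drop (hG : 2 ≤ Fintype.card G) (r : ℕ) {m n : ℕ} (hm : 1 ≤ m) (hmn : m < n) :
    ∃ K : GComplex G, K.IsFree ∧ ind G K.Realization = m ∧ Xind (GComplex.sd^[r] K).facePoset = n ∧
      Xind (GComplex.sd^[r + 1] K).facePoset < n := by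
  classical
  obtain ⟨K, h1, h2, h3, h4⟩ := exists_sd' G hG r m n hm
  -- the last subdivision with cross-index at least `n`
  have hex : ∃ t, PMaps (GComplex.sd^[t] K).facePoset (Q G (n - 1)) := by
    obtain ⟨T, hT⟩ := eventually_pmaps h3
    exact ⟨T, (hT T le_rfl).trans (Q_mono (by omega))⟩
  obtain ⟨t, ht, hmin⟩ : ∃ t, PMaps (GComplex.sd^[t] K).facePoset (Q G (n - 1)) ∧
      ∀ t' < t, ¬ PMaps (GComplex.sd^[t'] K).facePoset (Q G (n - 1)) :=
    ⟨Nat.find hex, Nat.find_spec hex, fun t' ht' => Nat.find_min hex ht'⟩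
  have hrt : r + 1 ≤ t := by
    by_contra hcon
    exact not_pmaps h4 (show n - 1 < n by omega) (pmaps_mono (by omega) ht)
  obtain ⟨j, rfl⟩ : ∃ j, t = r + 1 + j := ⟨t - (r + 1), by omega⟩
  rw [Function.iterate_add_apply] at ht
  obtain ⟨L, hL⟩ : ∃ L, L = GComplex.sd^[j] K := ⟨_, rfl⟩
  rw [← hL] at ht
  have hLr : (n : ℕ∞) ≤ Xind (GComplex.sd^[r] L).facePoset := by
    refine le_xind fun i hi hi' => ?_
    rw [hL, ← Function.iterate_add_apply] at hi'
    exact hmin (r + j) (by omega) (hi'.trans (Q_mono (by omega)))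
  have hLf : L.IsFree := by rw [hL]; exact sd_iter_free h1 j
  obtain ⟨k, hk, h5⟩ := exists_skel hLf r n hLr
  have h6 : PMaps (GComplex.sd^[r + 1] (skel L k)).facePoset (Q G (n - 1)) :=
    (((skel_maps L k).sd_iter (r + 1)).face).trans ht
  refine ⟨skel L k, skel_free hLf k, ind_eq' hG ?_ ?_, h5, ?_⟩
  · have h7 : Maps (GComplex.sd^[j] (E G m)) (skel L k) := by
      apply maps_skel'
      · rw [hL]; exact h2.sd_iter j
      · intro s hs
        exact (card_sd_iter (E G m) (m + 1) (fun s hs => card_face_E m hs) j s hs).trans (by omega)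
    exact (contMap_iter (E G m) j).trans (contMap_of_maps h7)
  · refine (contMap_of_maps (skel_maps L k)).trans (ContMap.trans ?_ h3)
    rw [hL]; exact contMap_sd_iter K j
  · refine lt_of_le_of_lt (xind_le h6) ?_
    exact_mod_cast (show n - 1 < n by omega)

theorem xind_lower {K : GComplex G} {m : ℕ} (h : ind G K.Realization = m) (r : ℕ) :
    (m : ℕ∞) ≤ Xind (GComplex.sd^[r] K).facePoset := by
  refine le_xind fun j hj hj' => ?_
  have h1 := ind_le' (ind_le_xind K r hj')
  rw [h] at h1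
  exact absurd hj (not_lt.2 (by exact_mod_cast h1))

/-- exactly `r` subdivisions are needed -/
theorem exact_number (hG : 2 ≤ Fintype.card G) (r : ℕ) {m : ℕ} (hm : 1 ≤ m) :
    ∃ K : GComplex G, K.IsFree ∧ ind G K.Realization = m ∧ ∀ s, Xind (GComplex.sd^[s] K).facePoset = m ↔ r ≤ s := by
  rcases Nat.eq_zero_or_pos r with h0 | hpos
  · subst h0
    obtain ⟨K, h1, h2, h3⟩ := exact_pairs (G := G) hG 0 hm le_rfl
    refine ⟨K, h1, h2, fun s => ⟨fun _ => Nat.zero_le _, fun _ => le_antisymm ?_ (xind_lower h2 s)⟩⟩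
    exact xind_le (pmaps_mono (Nat.zero_le s) (pmaps_of_xind (n := m) h3.le))
  · obtain ⟨r', rfl⟩ : ∃ r', r = r' + 1 := ⟨r - 1, by omega⟩
    obtain ⟨K, h1, h2, h3, h4⟩ := drop hG r' hm (Nat.lt_succ_self m)
    refine ⟨K, h1, h2, fun s => ⟨fun hs => ?_, fun hs => le_antisymm ?_ (xind_lower h2 s)⟩⟩
    · by_contra hcon
      have h5 : PMaps (GComplex.sd^[r'] K).facePoset (Q G m) := pmaps_mono (by omega) (pmaps_of_xind hs.le)
      have h6 := xind_le h5
      rw [h3] at h6
      have : m + 1 ≤ m := by exact_mod_cast h6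
      omega
    · have h5 : PMaps (GComplex.sd^[r' + 1] K).facePoset (Q G m) := by
        by_contra hcon
        have h6 : ((m + 1 : ℕ) : ℕ∞) ≤ Xind (GComplex.sd^[r' + 1] K).facePoset :=
          le_xind fun j hj hj' => hcon (hj'.trans (Q_mono (by omega)))
        exact absurd h4 (not_lt.2 h6)
      exact xind_le (pmaps_mono hs h5)

end Pool.Agent.KS6_6.XI
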